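import Mathlib

/-!
# Internal contextual grammars: suffix-closed versus state-bounded selection (MP_47ab97)

For every `n ≥ 1` there is a language in `IC(SUF)` which is not in `IC(REG^Z_n)`.
-/

set_option autoImplicit false

namespace Pool.Agent.Results.MP_47ab97_lc.SufNotState

open Relation

/-- `w` is a word over the alphabet `V`. -/
def Over (V : Finset ℕ) (w : List ℕ) : Prop := ∀ x ∈ w, x ∈ V

/-- `L` is a language over `V` accepted by a complete deterministic automaton with input
alphabet `V` and at most `n` states. -/
def REGZ (n : ℕ) (V : Finset ℕ) (L : Set (List ℕ)) : Prop :=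
  (∀ w ∈ L, Over V w) ∧
  ∃ (Z : Type) (_ : Fintype Z) (δ : Z → ℕ → Z) (z₀ : Z) (F : Set Z),
    Fintype.card Z ≤ n ∧ ∀ w : List ℕ, Over V w → (w ∈ L ↔ w.foldl δ z₀ ∈ F)

/-- `L` is a regular and suffix-closed language over `V`. -/
def SUF (V : Finset ℕ) (L : Set (List ℕ)) : Prop :=
  (∃ n, REGZ n V L) ∧ ∀ x y : List ℕ, x ++ y ∈ L → y ∈ L

/-- A selection language together with a finite set of contexts. -/
structure Sel where
  S : Set (List ℕ)
  C : Finset (List ℕ × List ℕ)

/-- Contextual grammars with selection over the alphabet `V`. -/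
structure Grammar where
  V : Finset ℕ
  P : List Sel
  A : Finset (List ℕ)
  hA : ∀ w ∈ A, Over V w
  hS : ∀ p ∈ P, ∀ w ∈ p.S, Over V w
  hC : ∀ p ∈ P, ∀ c ∈ p.C, Over V c.1 ∧ Over V c.2

/-- Internal derivation step. -/
def Grammar.Step (G : Grammar) (x y : List ℕ) : Prop :=
  ∃ p ∈ G.P, ∃ c ∈ p.C, ∃ x₁ x₂ x₃ : List ℕ,
    x = x₁ ++ x₂ ++ x₃ ∧ x₂ ∈ p.S ∧ y = x₁ ++ c.1 ++ x₂ ++ c.2 ++ x₃

/-- The generated language. -/
def Grammar.lang (G : Grammar) : Set (List ℕ) := {w | ∃ x ∈ G.A, ReflTransGen G.Step x w}

/-- The family `IC(F)`; `Fam V S` says that `S` belongs to `F` as a language over `V`. -/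
def IC (Fam : Finset ℕ → Set (List ℕ) → Prop) : Set (Set (List ℕ)) :=
  {L | ∃ G : Grammar, (∀ p ∈ G.P, Fam G.V p.S) ∧ G.lang = L}

/-! ## The language

Letters: `0, 3, 4, 5` are the letters of the axiom, `1` and `2` are the brackets. -/

section lang

variable (n : ℕ)

/-- the number of letters `0` in the axiom -/
def T : ℕ := (n + n.factorial + 1) * n

/-- the axiom -/
def w0 : List ℕ := List.replicate (T n) 0 ++ (List.replicate n 3 ++ [4, 5])

/-- how far a bracket closed at position `p` may reach into the block of letters `0` -/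
def rho (p : ℕ) : ℕ :=
  if p ≤ T n then 0 else if p ≤ T n + n then (p - T n) * n else
    if p ≤ T n + n + 1 then (n + n.factorial) * n else T n

/-- the factor of the axiom between the positions `q` and `p` may be selected -/
def ok (q p : ℕ) : Prop := q = p ∨ T n ≤ q + rho n p

instance (q p : ℕ) : Decidable (ok n q p) := by unfold ok; infer_instance

/-- the selection language -/
def S0 : Set (List ℕ) :=
  {w | ∃ q p, q ≤ p ∧ p ≤ T n + n + 2 ∧ ok n q p ∧ w = ((w0 n).drop q).take (p - q)}

/-- The stack automaton checking the words. -/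
def run : List ℕ → ℕ → List ℕ → Option (ℕ × List ℕ)
  | [], p, σ => some (p, σ)
  | x :: w, p, σ =>
    if x = 1 then run w p (p :: σ)
    else if x = 2 then
      match σ with
      | [] => none
      | q :: σ' => if ok n q p then run w p σ' else none
    else run w (p + 1) σ

/-- the projection to the letters of the axiom -/
def proj (w : List ℕ) : List ℕ := w.filter (fun x => x ≠ 1 ∧ x ≠ 2)

/-- the correct words -/
def Valid (w : List ℕ) : Prop := run n w 0 [] = some (T n + n + 2, []) ∧ proj w = w0 n

end lang

/-! ### Basic lemmas -/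

theorem w0_length (n : ℕ) : (w0 n).length = T n + n + 2 := by
  simp [w0]; omega

theorem w0_get (n i : ℕ) (h : i < T n + n + 2) : (w0 n)[i]? =
    some (if i < T n then 0 else if i < T n + n then 3 else if i = T n + n then 4 else 5) := by
  unfold w0
  split_ifs with h1 h2 h3
  · rw [List.getElem?_append_left (by simpa using h1)]
    simp [h1]
  · rw [List.getElem?_append_right (by simp; omega), List.getElem?_append_left (by simp; omega)]
    rw [List.getElem?_replicate, if_pos (by simp; omega)]
  · rw [List.getElem?_append_right (by simp; omega), List.getElem?_append_right (by simp; omega)]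
    subst h3
    simp
  · rw [List.getElem?_append_right (by simp; omega), List.getElem?_append_right (by simp; omega)]
    have : i - T n - n = 1 := by omega
    simp [this]

theorem run_append (n : ℕ) (u v : List ℕ) (p : ℕ) (σ : List ℕ) :
    run n (u ++ v) p σ = (run n u p σ).bind (fun s => run n v s.1 s.2) := by
  induction u generalizing p σ with
  | nil => simp [run]
  | cons x u ih =>
    simp only [List.cons_append, run]
    split_ifs with h1 h2
    · exact ih _ _
    · cases σ with
      | nil => rfl
      | cons q σ =>
        simp only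
        split_ifs
        · exact ih _ _
        · rfl
    · exact ih _ _

/-- no brackets -/
def Plain (x : List ℕ) : Prop := ∀ y ∈ x, y ≠ 1 ∧ y ≠ 2

theorem run_plain (n : ℕ) (x : List ℕ) (hx : Plain x) (p : ℕ) (σ : List ℕ) :
    run n x p σ = some (p + x.length, σ) := by
  induction x generalizing p with
  | nil => simp [run]
  | cons y x ih =>
    have h := hx y (by simp)
    simp only [run, if_neg h.1, if_neg h.2]
    rw [ih (fun z hz => hx z (by simp [hz]))]
    simp; omega

theorem proj_plain (x : List ℕ) (hx : Plain x) : proj x = x := by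
  unfold proj
  rw [List.filter_eq_self]
  intro y hy
  simpa using hx y hy

theorem proj_append (x y : List ℕ) : proj (x ++ y) = proj x ++ proj y := by
  simp [proj]

theorem plain_w0 (n : ℕ) : Plain (w0 n) := by
  intro y hy
  simp only [w0, List.mem_append, List.mem_replicate, List.mem_cons, List.not_mem_nil] at hy
  rcases hy with ⟨-, rfl⟩ | ⟨-, rfl⟩ | rfl | rfl | h
  · decide
  · decide
  · decide
  · decide
  · exact h.elim

theorem run_pos (n : ℕ) (w : List ℕ) (p : ℕ) (σ : List ℕ) (s : ℕ × List ℕ)
    (h : run n w p σ = some s) : s.1 = p + (proj w).length := by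
  induction w generalizing p σ with
  | nil =>
    simp only [run, Option.some.injEq] at h
    subst h; simp [proj]
  | cons x w ih =>
    simp only [run] at h
    by_cases h1 : x = 1
    · rw [if_pos h1] at h
      have := ih _ _ h
      subst h1
      simpa [proj] using this
    · rw [if_neg h1] at h
      by_cases h2 : x = 2
      · rw [if_pos h2] at h
        subst h2
        cases σ with
        | nil => simp at h
        | cons q σ =>
          simp only at h
          split_ifs at h
          have := ih _ _ h
          simpa [proj] using this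
      · rw [if_neg h2] at h
        have := ih _ _ h
        have h3 : proj (x :: w) = x :: proj w := by
          simp [proj, h1, h2]
        rw [h3, this]
        simp; omega

theorem rho_mono (n : ℕ) {p p' : ℕ} (h : p ≤ p') : rho n p ≤ rho n p' := by
  have hT : T n = (n + n.factorial) * n + n := by unfold T; ring
  have h2 : n * n ≤ (n + n.factorial) * n := Nat.mul_le_mul_right _ (by omega)
  unfold rho
  by_cases c1 : p ≤ T n
  · rw [if_pos c1]; omega
  · rw [if_neg c1, if_neg (show ¬ p' ≤ T n by omega)]
    by_cases c2 : p ≤ T n + n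
    · rw [if_pos c2]
      have h3 : (p - T n) * n ≤ n * n := Nat.mul_le_mul_right _ (by omega)
      by_cases c3 : p' ≤ T n + n
      · rw [if_pos c3]
        exact Nat.mul_le_mul_right _ (by omega)
      · rw [if_neg c3]
        split_ifs <;> omega
    · rw [if_neg c2, if_neg (show ¬ p' ≤ T n + n by omega)]
      split_ifs <;> omega

theorem ok_left (n : ℕ) {q q' p : ℕ} (h : ok n q p) (hq : q ≤ q') (hp : q' ≤ p) : ok n q' p := by
  rcases h with rfl | h
  · left; omega
  · right; omega

/-- the factor is determined -/
theorem ok_of_eq (n : ℕ) {q p q' p' : ℕ} (hq : q ≤ p) (hp : p ≤ T n + n + 2) (hq' : q' ≤ p')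
    (hp' : p' ≤ T n + n + 2)
    (he : ((w0 n).drop q).take (p - q) = ((w0 n).drop q').take (p' - q')) (h : ok n q p) :
    ok n q' p' := by
  have hl : p - q = p' - q' := by
    have := congrArg List.length he
    simp only [List.length_take, List.length_drop, w0_length] at this
    omega
  rcases h with rfl | h
  · left; omega
  · by_cases hqp : q = p
    · left; omega
    have hlt : q < p := by omega
    have hf : ∀ t, t < p - q →
        (if q + t < T n then 0 else if q + t < T n + n then 3 else
          if q + t = T n + n then 4 else 5 : ℕ) =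
        (if q' + t < T n then 0 else if q' + t < T n + n then 3 else
          if q' + t = T n + n then 4 else 5 : ℕ) := by
      intro t ht
      have h1 := congrArg (fun l => l[t]?) he
      simp only [List.getElem?_take, List.getElem?_drop] at h1
      rw [if_pos ht, if_pos (by omega), w0_get _ _ (by omega), w0_get _ _ (by omega)] at h1
      exact Option.some.inj h1
    have hpT : T n < p := by
      by_contra hc
      have : rho n p = 0 := by unfold rho; rw [if_pos (by omega)]
      omega
    have hlast := hf (p - q - 1) (by omega)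
    rw [show q + (p - q - 1) = p - 1 by omega, show q' + (p - q - 1) = p' - 1 by omega] at hlast
    rw [if_neg (show ¬ p - 1 < T n by omega)] at hlast
    have hp'T : T n < p' := by
      by_contra hc
      rw [if_pos (show p' - 1 < T n by omega)] at hlast
      split_ifs at hlast
    rw [if_neg (show ¬ p' - 1 < T n by omega)] at hlast
    by_cases c1 : p - 1 < T n + n
    · rw [if_pos c1] at hlast
      have c2 : p' - 1 < T n + n := by
        by_contra hc
        rw [if_neg hc] at hlast
        split_ifs at hlast <;> omega
      by_cases c3 : T n ≤ q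
      · have : T n ≤ q' := by
          by_contra hc
          have h2 := hf 0 (by omega)
          simp only [Nat.add_zero] at h2
          rw [if_neg (show ¬ q < T n by omega), if_pos (show q' < T n by omega)] at h2
          split_ifs at h2
        right; omega
      · have hqq : q = q' := by
          rcases Nat.lt_trichotomy q q' with hc | hc | hc
          · have h2 := hf (T n - 1 - q) (by omega)
            rw [if_pos (show q + (T n - 1 - q) < T n by omega),
              if_neg (show ¬ q' + (T n - 1 - q) < T n by omega)] at h2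
            split_ifs at h2
          · exact hc
          · by_cases hq2 : T n ≤ q'
            · omega
            have h2 := hf (T n - 1 - q') (by omega)
            rw [if_neg (show ¬ q + (T n - 1 - q') < T n by omega),
              if_pos (show q' + (T n - 1 - q') < T n by omega)] at h2
            split_ifs at h2
        subst hqq
        have : p = p' := by omega
        subst this
        right; exact h
    · rw [if_neg c1] at hlast
      have hpp : p = p' := by
        by_cases c2 : p - 1 = T n + n
        · rw [if_pos c2] at hlast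
          by_cases c3 : p' - 1 < T n + n
          · rw [if_pos c3] at hlast; omega
          · rw [if_neg c3] at hlast
            by_cases c4 : p' - 1 = T n + n
            · omega
            · rw [if_neg c4] at hlast; omega
        · rw [if_neg c2] at hlast
          by_cases c3 : p' - 1 < T n + n
          · rw [if_pos c3] at hlast; omega
          · rw [if_neg c3] at hlast
            by_cases c4 : p' - 1 = T n + n
            · rw [if_pos c4] at hlast; omega
            · omega
      have : q = q' := by omega
      subst this hpp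
      right; exact h

theorem proj_valid_take {n : ℕ} {x₁ x₂ x₃ : List ℕ} (h : proj (x₁ ++ x₂ ++ x₃) = w0 n)
    (hx : Plain x₂) : x₂ = ((w0 n).drop (proj x₁).length).take x₂.length := by
  rw [← h, proj_append, proj_append, proj_plain _ hx, List.append_assoc,
    List.drop_left' rfl, List.take_left' rfl]

/-- `[1] ++ x₂ ++ [2]` for `x₂ ∈ S0` can be inserted. -/
theorem valid_insert {n : ℕ} {x₁ x₂ x₃ : List ℕ} (h : Valid n (x₁ ++ x₂ ++ x₃))
    (hx : x₂ ∈ S0 n) : Valid n (x₁ ++ [1] ++ x₂ ++ [2] ++ x₃) := by
  obtain ⟨q, p, hqp, hp, hok, rfl⟩ := hx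
  have hpl : Plain (((w0 n).drop q).take (p - q)) := by
    intro y hy
    exact plain_w0 n y (List.mem_of_mem_drop (List.mem_of_mem_take hy))
  have hlen : (((w0 n).drop q).take (p - q)).length = p - q := by
    simp only [List.length_take, List.length_drop, w0_length]; omega
  have ht := proj_valid_take h.2 hpl
  rw [hlen] at ht
  obtain ⟨h1, h2⟩ := h
  have hL : (proj x₁).length + (p - q) ≤ T n + n + 2 := by
    rw [← w0_length, ← h2, proj_append, proj_append, proj_plain _ hpl]
    simp only [List.length_append, hlen]; omega
  set x₂ := ((w0 n).drop q).take (p - q) with hx₂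
  rw [List.append_assoc, run_append] at h1
  cases hr : run n x₁ 0 [] with
  | none => rw [hr] at h1; simp at h1
  | some s =>
    have hs := run_pos n x₁ 0 [] s hr
    rw [Nat.zero_add] at hs
    rw [hr] at h1
    simp only [Option.bind_some] at h1
    rw [run_append, run_plain _ _ hpl] at h1
    simp only [Option.bind_some] at h1
    have hok' : ok n s.1 (s.1 + (p - q)) := by
      refine ok_of_eq n hqp hp (by omega) (by rw [hs]; exact hL) ?_ hok
      rw [show s.1 + (p - q) - s.1 = p - q by omega, hs, ← ht]
    constructor
    · rw [List.append_assoc, List.append_assoc, List.append_assoc, run_append, hr]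
      simp only [Option.bind_some, List.cons_append, List.nil_append, run, if_true]
      rw [run_append, run_plain _ _ hpl]
      simp only [Option.bind_some, run, hlen]
      rw [if_neg (by omega), if_pos trivial]
      rw [if_pos hok', ← h1, hlen]
    · rw [← h2]
      simp only [proj_append]
      simp [proj]

/-! ### The grammar -/

theorem split_first {x : List ℕ} {c : ℕ} (h : c ∈ x) :
    ∃ y z, x = y ++ c :: z ∧ c ∉ y := by
  induction x with
  | nil => simp at h
  | cons a x ih =>
    by_cases hac : a = c
    · exact ⟨[], x, by simp [hac], by simp⟩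
    · have : c ∈ x := by
        rcases List.mem_cons.1 h with h | h
        · exact absurd h.symm hac
        · exact h
      obtain ⟨y, z, rfl, hy⟩ := ih this
      refine ⟨a :: y, z, rfl, ?_⟩
      simp only [List.mem_cons, not_or]
      exact ⟨fun h => hac h.symm, hy⟩

theorem split_last {x : List ℕ} {c : ℕ} (h : c ∈ x) :
    ∃ y z, x = y ++ c :: z ∧ c ∉ z := by
  have h' : c ∈ x.reverse := by simpa using h
  obtain ⟨y, z, hx, hy⟩ := split_first h'
  refine ⟨z.reverse, y.reverse, ?_, by simpa using hy⟩
  have := congrArg List.reverse hx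
  simpa using this

theorem run_stack (n : ℕ) (w : List ℕ) (h2 : 2 ∉ w) (p : ℕ) (σ : List ℕ) :
    ∃ τ, run n w p σ = some (p + (proj w).length, τ ++ σ) ∧ τ.length = w.count 1 := by
  induction w generalizing p σ with
  | nil => exact ⟨[], by simp [run, proj], rfl⟩
  | cons x w ih =>
    have h2' : 2 ∉ w := fun h => h2 (List.mem_cons_of_mem _ h)
    have hx2 : x ≠ 2 := fun h => h2 (by simp [h])
    by_cases h1 : x = 1
    · subst h1
      obtain ⟨τ, hτ, hl⟩ := ih h2' p (p :: σ)
      refine ⟨τ ++ [p], ?_, by simp [hl]⟩
      simp only [run, if_true]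
      rw [hτ]
      simp [proj]
    · obtain ⟨τ, hτ, hl⟩ := ih h2' (p + 1) σ
      refine ⟨τ, ?_, ?_⟩
      · simp only [run, if_neg h1, if_neg hx2]
        rw [hτ]
        simp [proj, h1, hx2]; omega
      · rw [hl, List.count_cons_of_ne h1]

theorem run_count (n : ℕ) (w : List ℕ) (p : ℕ) (σ : List ℕ) (s : ℕ × List ℕ)
    (h : run n w p σ = some s) : s.2.length + w.count 2 = σ.length + w.count 1 := by
  induction w generalizing p σ with
  | nil =>
    simp only [run, Option.some.injEq] at h
    subst h; simp
  | cons x w ih =>
    simp only [run] at h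
    by_cases h1 : x = 1
    · rw [if_pos h1] at h
      have := ih _ _ h
      subst h1
      simp only [List.length_cons] at this
      simp; omega
    · rw [if_neg h1] at h
      by_cases h2 : x = 2
      · rw [if_pos h2] at h
        subst h2
        cases σ with
        | nil => simp at h
        | cons q σ =>
          simp only at h
          split_ifs at h
          have := ih _ _ h
          simp; omega
      · rw [if_neg h2] at h
        have := ih _ _ h
        rw [List.count_cons_of_ne h1, List.count_cons_of_ne h2]
        exact this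

theorem valid_count {n : ℕ} {w : List ℕ} (h : Valid n w) : w.count 2 = w.count 1 := by
  have := run_count n w 0 [] _ h.1
  simpa using this

/-- every word which is not the axiom comes from a smaller one -/
theorem valid_remove {n : ℕ} {w : List ℕ} (h : Valid n w) (hw : w ≠ w0 n) :
    ∃ x₁ x₂ x₃, w = x₁ ++ [1] ++ x₂ ++ [2] ++ x₃ ∧ x₂ ∈ S0 n ∧ Valid n (x₁ ++ x₂ ++ x₃) := by
  have h2 : 2 ∈ w := by
    by_contra hc
    have hc2 : w.count 2 = 0 := List.count_eq_zero.2 hc
    have hc1 : w.count 1 = 0 := by rw [← valid_count h]; exact hc2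
    apply hw
    rw [← h.2, proj_plain]
    intro y hy
    constructor
    · rintro rfl
      exact (List.count_eq_zero.1 hc1) hy
    · rintro rfl
      exact hc hy
  obtain ⟨z, x₃, rfl, hz⟩ := split_first h2
  obtain ⟨τ, hτ, hl⟩ := run_stack n z hz 0 []
  have h1 := h.1
  rw [run_append, hτ] at h1
  simp only [Option.bind_some, List.append_nil] at h1
  have hz1 : 1 ∈ z := by
    by_contra hc
    rw [List.count_eq_zero.2 hc] at hl
    rw [List.length_eq_zero_iff.1 hl] at h1
    simp [run] at h1
  obtain ⟨x₁, x₂, rfl, hx2⟩ := split_last hz1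
  have hpl : Plain x₂ := by
    intro y hy
    constructor
    · rintro rfl; exact hx2 hy
    · rintro rfl; exact hz (by simp [hy])
  cases hr : run n x₁ 0 [] with
  | none =>
    have := h.1
    rw [List.append_assoc, run_append, hr] at this
    simp at this
  | some s =>
    have hs := run_pos n x₁ 0 [] s hr
    rw [Nat.zero_add] at hs
    have h3 := h.1
    rw [List.append_assoc, run_append, hr] at h3
    simp only [Option.bind_some, List.cons_append, run, if_true] at h3
    rw [run_append, run_plain _ _ hpl] at h3
    simp only [Option.bind_some, run] at h3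
    rw [if_neg (by omega), if_pos trivial] at h3
    split_ifs at h3 with hok
    have hp : proj (x₁ ++ x₂ ++ x₃) = w0 n := by
      rw [← h.2]
      simp only [proj_append]
      simp [proj]
    refine ⟨x₁, x₂, x₃, by simp, ?_, ?_, hp⟩
    · refine ⟨s.1, s.1 + x₂.length, by omega, ?_, hok, ?_⟩
      · rw [← w0_length, ← hp, proj_append, proj_append, proj_plain _ hpl, hs]
        simp
      · rw [show s.1 + x₂.length - s.1 = x₂.length by omega, hs]
        exact proj_valid_take hp hpl
    · rw [List.append_assoc, run_append, hr]
      simp only [Option.bind_some]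
      rw [run_append, run_plain _ _ hpl]
      simp only [Option.bind_some]
      exact h3

theorem valid_w0 (n : ℕ) : Valid n (w0 n) := by
  constructor
  · rw [run_plain _ _ (plain_w0 n), w0_length]; simp
  · exact proj_plain _ (plain_w0 n)

/-- the alphabet -/
def V0 : Finset ℕ := {0, 1, 2, 3, 4, 5}

theorem over_w0 (n : ℕ) : Over V0 (w0 n) := by
  intro y hy
  simp only [w0, List.mem_append, List.mem_replicate, List.mem_cons, List.not_mem_nil] at hy
  rcases hy with ⟨-, rfl⟩ | ⟨-, rfl⟩ | rfl | rfl | h
  · decide
  · decide
  · decide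
  · decide
  · exact h.elim

theorem over_S0 (n : ℕ) : ∀ w ∈ S0 n, Over V0 w := by
  rintro w ⟨q, p, -, -, -, rfl⟩ y hy
  exact over_w0 n y (List.mem_of_mem_drop (List.mem_of_mem_take hy))

/-- the selection pair -/
def sel0 (n : ℕ) : Sel := ⟨S0 n, {([1], [2])}⟩

/-- the grammar -/
def G0 (n : ℕ) : Grammar where
  V := V0
  P := [sel0 n]
  A := {w0 n}
  hA := by
    intro w hw
    simp only [Finset.mem_singleton] at hw
    subst hw
    exact over_w0 n
  hS := by
    intro p hp
    simp only [List.mem_cons, List.not_mem_nil, or_false] at hp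
    subst hp
    exact over_S0 n
  hC := by
    intro p hp c hc
    simp only [List.mem_cons, List.not_mem_nil, or_false] at hp
    subst hp
    simp only [sel0, Finset.mem_singleton] at hc
    subst hc
    constructor <;> intro x hx <;> simp only [List.mem_cons, List.not_mem_nil, or_false] at hx <;>
      subst hx <;> decide

theorem G0_lang (n : ℕ) : (G0 n).lang = {w | Valid n w} := by
  ext w
  constructor
  · rintro ⟨x, hx, h⟩
    have hx' : x = w0 n := by simpa [G0] using hx
    subst hx'
    induction h with
    | refl => exact valid_w0 n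
    | tail _ hs ih =>
      obtain ⟨p, hp, c, hc, x₁, x₂, x₃, rfl, h2, rfl⟩ := hs
      have hp' : p = sel0 n := by simpa [G0] using hp
      subst hp'
      have hc' : c = ([1], [2]) := by simpa [sel0] using hc
      subst hc'
      exact valid_insert ih h2
  · intro h
    change Valid n w at h
    induction hl : w.length using Nat.strong_induction_on generalizing w with
    | _ l ih =>
      by_cases hw : w = w0 n
      · subst hw
        exact ⟨_, by simp [G0], ReflTransGen.refl⟩
      · obtain ⟨x₁, x₂, x₃, rfl, h2, h3⟩ := valid_remove h hw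
        obtain ⟨x, hx, hxr⟩ := ih (x₁ ++ x₂ ++ x₃).length (by
          subst hl; simp only [List.length_append, List.length_cons, List.length_nil]; omega)
          _ h3 rfl
        refine ⟨x, hx, hxr.tail ⟨sel0 n, by simp [G0], ([1], [2]), by simp [sel0], x₁, x₂, x₃,
          rfl, h2, by simp⟩⟩

theorem finite_infix (w : List ℕ) : {x : List ℕ | x <:+: w}.Finite := by
  refine (w.sublists.toFinset.finite_toSet).subset ?_
  intro x hx
  simp only [Finset.mem_coe, List.mem_toFinset, List.mem_sublists]
  exact hx.sublist

theorem S0_infix (n : ℕ) {x : List ℕ} (hx : x ∈ S0 n) : x <:+: w0 n := by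
  obtain ⟨q, p, -, -, -, rfl⟩ := hx
  exact (List.take_prefix _ _).isInfix.trans (List.drop_suffix _ _).isInfix

theorem S0_suf (n : ℕ) (x y : List ℕ) (h : x ++ y ∈ S0 n) : y ∈ S0 n := by
  obtain ⟨q, p, hqp, hp, hok, he⟩ := h
  have hl : x.length + y.length = p - q := by
    have := congrArg List.length he
    simp only [List.length_append, List.length_take, List.length_drop, w0_length] at this
    omega
  refine ⟨q + x.length, p, by omega, hp, ok_left n hok (by omega) (by omega), ?_⟩
  have h2 := congrArg (List.drop x.length) he
  rw [List.drop_left' rfl, List.drop_take, List.drop_drop] at h2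
  rw [h2]
  congr 1
  omega

open Classical in
theorem S0_regular (n : ℕ) : ∃ k, REGZ k V0 (S0 n) := by
  have hfin : Finite {x : List ℕ // x <:+: w0 n} := (finite_infix (w0 n)).to_subtype
  have hft : Fintype (Option {x : List ℕ // x <:+: w0 n}) := Fintype.ofFinite _
  let δ : Option {x : List ℕ // x <:+: w0 n} → ℕ → Option {x : List ℕ // x <:+: w0 n} :=
    fun z a => z.bind (fun x => if h : x.1 ++ [a] <:+: w0 n then some ⟨x.1 ++ [a], h⟩ else none)
  have key : ∀ w : List ℕ, w.foldl δ (some ⟨[], List.nil_infix⟩) =
      if h : w <:+: w0 n then some ⟨w, h⟩ else none := by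
    intro w
    induction w using List.reverseRecOn with
    | nil => simp
    | append_singleton w a ih =>
      rw [List.foldl_append, ih]
      by_cases h1 : w <:+: w0 n
      · rw [dif_pos h1]
        simp [δ]
      · rw [dif_neg h1, dif_neg]
        · simp [δ]
        · intro h2
          exact h1 ((List.prefix_append _ _).isInfix.trans h2)
  refine ⟨Fintype.card (Option {x : List ℕ // x <:+: w0 n}), over_S0 n,
    Option {x : List ℕ // x <:+: w0 n}, hft, δ, some ⟨[], List.nil_infix⟩,
    {z | ∃ x, z = some x ∧ x.1 ∈ S0 n}, le_refl _, ?_⟩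
  intro w _
  rw [key]
  constructor
  · intro hw
    rw [dif_pos (S0_infix n hw)]
    exact ⟨_, rfl, hw⟩
  · rintro ⟨x, hx, hxS⟩
    split_ifs at hx with h
    rw [← Option.some.inj hx] at hxS
    exact hxS

/-! ### Computations -/

/-- `(1 0^n)^m` -/
def blk (n : ℕ) : ℕ → List ℕ
  | 0 => []
  | m + 1 => blk n m ++ (1 :: List.replicate n 0)

/-- `(3 2)^r` -/
def ecs : ℕ → List ℕ
  | 0 => []
  | r + 1 => ecs r ++ [3, 2]

/-- the stack after reading `blk n m` -/
def stk (n p : ℕ) : ℕ → List ℕ
  | 0 => []
  | m + 1 => (p + m * n) :: stk n p m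

theorem stk_length (n p m : ℕ) : (stk n p m).length = m := by
  induction m with
  | zero => rfl
  | succ m ih => simp [stk, ih]

theorem stk_ge (n p m : ℕ) : ∀ q ∈ stk n p m, p ≤ q := by
  induction m with
  | zero => simp [stk]
  | succ m ih =>
    intro q hq
    simp only [stk, List.mem_cons] at hq
    rcases hq with rfl | hq
    · omega
    · exact ih q hq

theorem plain_replicate (k x : ℕ) (h1 : x ≠ 1) (h2 : x ≠ 2) : Plain (List.replicate k x) := by
  intro y hy
  rw [(List.mem_replicate.1 hy).2]
  exact ⟨h1, h2⟩

theorem run_rep (n k x : ℕ) (h1 : x ≠ 1) (h2 : x ≠ 2) (p : ℕ) (σ : List ℕ) :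
    run n (List.replicate k x) p σ = some (p + k, σ) := by
  rw [run_plain _ _ (plain_replicate k x h1 h2)]; simp

theorem run_ones (n s p : ℕ) (σ : List ℕ) :
    run n (List.replicate s 1) p σ = some (p, List.replicate s p ++ σ) := by
  induction s generalizing σ with
  | zero => simp [run]
  | succ s ih =>
    rw [List.replicate_succ]
    simp only [run, if_true]
    rw [ih]
    rw [List.replicate_succ', List.append_assoc]
    rfl

theorem run_blk (n m p : ℕ) (σ : List ℕ) :
    run n (blk n m) p σ = some (p + m * n, stk n p m ++ σ) := by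
  induction m with
  | zero => simp [blk, stk, run]
  | succ m ih =>
    rw [blk, run_append, ih]
    simp only [Option.bind_some, run, if_true]
    rw [run_rep _ _ _ (by decide) (by decide)]
    simp [stk]; ring

theorem run_twos (n p : ℕ) (τ σ : List ℕ) (h : ∀ q ∈ τ, ok n q p) :
    run n (List.replicate τ.length 2) p (τ ++ σ) = some (p, σ) := by
  induction τ with
  | nil => simp [run]
  | cons q τ ih =>
    rw [List.length_cons, List.replicate_succ, List.cons_append]
    simp only [run]
    rw [if_neg (by decide), if_pos trivial, if_pos (h q (by simp))]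
    exact ih (fun q' hq' => h q' (by simp [hq']))

theorem run_twos_none (n p t x : ℕ) (τ σ : List ℕ) (h : ¬ ok n x p) (ht : τ.length < t) :
    run n (List.replicate t 2) p (τ ++ x :: σ) = none := by
  induction τ generalizing t with
  | nil =>
    cases t with
    | zero => simp at ht
    | succ t =>
      rw [List.replicate_succ, List.nil_append]
      simp only [run]
      rw [if_neg (by decide), if_pos trivial, if_neg h]
  | cons q τ ih =>
    cases t with
    | zero => simp at ht
    | succ t =>
      rw [List.replicate_succ, List.cons_append]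
      simp only [run]
      rw [if_neg (by decide), if_pos trivial]
      split_ifs
      · exact ih t (by simpa using ht)
      · rfl

theorem T_eq (n : ℕ) : T n = (n + n.factorial) * n + n := by unfold T; ring

theorem rho_e (n j : ℕ) (hj : j ≤ n) : rho n (T n + j) = j * n := by
  unfold rho
  by_cases h0 : j = 0
  · subst h0; simp
  · rw [if_neg (by omega), if_pos (by omega), Nat.add_sub_cancel_left]

theorem rho_g (n : ℕ) : rho n (T n + n + 1) = (n + n.factorial) * n := by
  unfold rho
  rw [if_neg (by omega), if_neg (by omega), if_pos (by omega)]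

theorem rho_h (n : ℕ) : rho n (T n + n + 2) = T n := by
  unfold rho
  rw [if_neg (by omega), if_neg (by omega), if_neg (by omega)]

theorem run_ecs (n r m p : ℕ) (σ : List ℕ) (hrm : r ≤ m) (hrn : r ≤ n) (hp : p + m * n = T n) :
    run n (ecs r) (T n) (stk n p m ++ σ) = some (T n + r, stk n p (m - r) ++ σ) := by
  induction r with
  | zero => simp [ecs, run]
  | succ r ih =>
    rw [ecs, run_append, ih (by omega) (by omega)]
    obtain ⟨d, hd⟩ : ∃ d, m = d + (r + 1) := ⟨m - (r + 1), by omega⟩
    rw [show m - r = d + 1 by omega, show m - (r + 1) = d by omega]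
    simp only [Option.bind_some, stk, List.cons_append, run]
    rw [if_neg (by decide), if_neg (by decide), if_neg (by decide), if_pos trivial, if_pos]
    · rfl
    · right
      have h5 : rho n (T n + r + 1) = (r + 1) * n := rho_e n (r + 1) hrn
      rw [h5, ← hp, hd]
      exact le_of_eq (by ring)

theorem ecs_add (a b : ℕ) : ecs (a + b) = ecs a ++ ecs b := by
  induction b with
  | zero => simp [ecs]
  | succ b ih => rw [Nat.add_succ, ecs, ecs, ih, List.append_assoc]

theorem blk_add (n a b : ℕ) : blk n (a + b) = blk n a ++ blk n b := by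
  induction b with
  | zero => simp [blk]
  | succ b ih => rw [Nat.add_succ, blk, blk, ih, List.append_assoc]

theorem proj_rep (k x : ℕ) (h1 : x ≠ 1) (h2 : x ≠ 2) :
    proj (List.replicate k x) = List.replicate k x :=
  proj_plain _ (plain_replicate k x h1 h2)

theorem proj_ones (k : ℕ) : proj (List.replicate k 1) = [] := by
  unfold proj
  rw [List.filter_eq_nil_iff]
  intro a ha
  rw [(List.mem_replicate.1 ha).2]
  decide

theorem proj_twos (k : ℕ) : proj (List.replicate k 2) = [] := by
  unfold proj
  rw [List.filter_eq_nil_iff]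
  intro a ha
  rw [(List.mem_replicate.1 ha).2]
  decide

theorem proj_blk (n m : ℕ) : proj (blk n m) = List.replicate (m * n) 0 := by
  induction m with
  | zero => simp [blk, proj]
  | succ m ih =>
    have h : (1 :: List.replicate n 0 : List ℕ) = List.replicate 1 1 ++ List.replicate n 0 := rfl
    rw [blk, proj_append, ih, h, proj_append, proj_ones, proj_rep _ _ (by decide) (by decide),
      List.nil_append, ← List.replicate_add]
    congr 1; ring

theorem proj_ecs (r : ℕ) : proj (ecs r) = List.replicate r 3 := by
  induction r with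
  | zero => simp [ecs, proj]
  | succ r ih =>
    rw [ecs, proj_append, ih, List.replicate_succ']
    rfl

/-- the run on the left part of a word -/
theorem run_pre (n x s y m : ℕ) :
    run n (List.replicate x 0 ++ (List.replicate s 1 ++ (List.replicate y 0 ++ blk n m))) 0 [] =
      some (x + y + m * n, stk n (x + y) m ++ List.replicate s x) := by
  rw [run_append, run_rep _ _ _ (by decide) (by decide)]
  simp only [Option.bind_some]
  rw [run_append, run_ones]
  simp only [Option.bind_some]
  rw [run_append, run_rep _ _ _ (by decide) (by decide)]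
  simp only [Option.bind_some]
  rw [run_blk]
  simp

/-- the run on the left part and on `(3 2)^r` -/
theorem run_pre_ecs (n x s y m r : ℕ) (hT : x + y + m * n = T n) (hrm : r ≤ m) (hrn : r ≤ n)
    (w : List ℕ) :
    run n ((List.replicate x 0 ++ (List.replicate s 1 ++ (List.replicate y 0 ++ blk n m))) ++
      (ecs r ++ w)) 0 [] = run n w (T n + r) (stk n (x + y) (m - r) ++ List.replicate s x) := by
  rw [run_append, run_pre]
  simp only [Option.bind_some]
  rw [hT, run_append, run_ecs _ _ _ _ _ hrm hrn hT]
  rfl

theorem proj_pre (n x s y m : ℕ) :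
    proj (List.replicate x 0 ++ (List.replicate s 1 ++ (List.replicate y 0 ++ blk n m))) =
      List.replicate (x + y + m * n) 0 := by
  rw [proj_append, proj_append, proj_append, proj_rep _ _ (by decide) (by decide), proj_ones,
    proj_rep _ _ (by decide) (by decide), proj_blk, List.nil_append, ← List.replicate_add,
    ← List.replicate_add]
  congr 1; ring

/-! ### Four facts on validity -/

/-- the test word for a selected word with an unmatched opening bracket -/
theorem valid_A (n x s m r : ℕ) (hT : x + n + m * n = T n) (hrm : r < m) (hmn : m ≤ n) :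
    Valid n ((List.replicate x 0 ++ (List.replicate s 1 ++ (List.replicate n 0 ++ blk n m))) ++
      (ecs r ++ ([3] ++ (List.replicate (m - r - 1) 3 ++ (List.replicate (m - r) 2 ++
        (List.replicate (n - m) 3 ++ ([4, 5] ++ List.replicate s 2))))))) := by
  constructor
  · rw [run_pre_ecs _ _ _ _ _ _ hT hrm.le (by omega)]
    rw [run_append, run_plain _ _ (by intro y hy; simp at hy; omega)]
    simp only [Option.bind_some, List.length_singleton]
    rw [run_append, run_rep _ _ _ (by decide) (by decide)]
    simp only [Option.bind_some]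
    rw [show T n + r + 1 + (m - r - 1) = T n + m by omega]
    have h1 := run_twos n (T n + m) (stk n (x + n) (m - r)) (List.replicate s x) (by
      intro q hq
      right
      have := stk_ge _ _ _ q hq
      rw [rho_e _ _ hmn]; omega)
    rw [stk_length] at h1
    rw [run_append, h1]
    simp only [Option.bind_some]
    rw [run_append, run_rep _ _ _ (by decide) (by decide)]
    simp only [Option.bind_some]
    rw [run_append, run_plain _ _ (by intro y hy; simp at hy; omega)]
    simp only [Option.bind_some, List.length_cons, List.length_nil]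
    rw [show T n + m + (n - m) + (0 + 1 + 1) = T n + n + 2 by omega]
    have h2 := run_twos n (T n + n + 2) (List.replicate s x) [] (by
      intro q hq
      right
      rw [rho_h]; omega)
    rw [List.length_replicate, List.append_nil] at h2
    exact h2
  · rw [proj_append, proj_pre, hT, proj_append, proj_ecs, proj_append, proj_append, proj_append,
      proj_append, proj_append, proj_twos, proj_twos, proj_rep _ _ (by decide) (by decide),
      proj_rep _ _ (by decide) (by decide)]
    have h1 : proj [3] = List.replicate 1 3 := rfl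
    have h2 : proj [4, 5] = [4, 5] := rfl
    rw [h1, h2, w0, List.nil_append, List.append_nil]
    congr 1
    rw [← List.append_assoc, ← List.append_assoc, ← List.append_assoc, ← List.replicate_add,
      ← List.replicate_add, ← List.replicate_add]
    congr 2
    omega

theorem run_none_append {n : ℕ} {u v : List ℕ} {p : ℕ} {σ : List ℕ} (h : run n u p σ = none) :
    run n (u ++ v) p σ = none := by
  rw [run_append, h]; rfl

theorem invalid_A (n x s m r : ℕ) (hn : 1 ≤ n) (hT : x + n + m * n = T n) (hrm : r < m)
    (hmn : m ≤ n) (w : List ℕ) :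
    ¬ Valid n ((List.replicate x 0 ++ (List.replicate (s + 1) 1 ++
      (List.replicate n 0 ++ blk n m))) ++
      (ecs (r + 1) ++ (List.replicate (m - r - 1) 3 ++ (List.replicate (m - r) 2 ++ w)))) := by
  rintro ⟨h, -⟩
  rw [run_pre_ecs _ _ _ _ _ _ hT (by omega) (by omega)] at h
  rw [run_append, run_rep _ _ _ (by decide) (by decide)] at h
  simp only [Option.bind_some] at h
  rw [show T n + (r + 1) + (m - r - 1) = T n + m by omega, List.replicate_succ] at h
  rw [run_none_append (run_twos_none _ _ _ _ _ _ _ _)] at h
  · simp at h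
  · rintro (h2 | h2)
    · omega
    · rw [rho_e _ _ hmn] at h2; omega
  · rw [stk_length]; omega

theorem valid_B (n x r : ℕ) (hT : x + (n + n.factorial) + r * n = T n) (hrn : r < n) :
    Valid n ((List.replicate x 0 ++ (List.replicate 0 1 ++
      (List.replicate (n + n.factorial) 0 ++ blk n r))) ++
      (ecs r ++ ([3] ++ (List.replicate (n - r - 1) 3 ++ [4, 5])))) := by
  constructor
  · rw [run_pre_ecs _ _ _ _ _ _ hT le_rfl hrn.le]
    rw [run_append, run_plain _ _ (by intro y hy; simp at hy; omega)]
    simp only [Option.bind_some, List.length_singleton]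
    rw [run_append, run_rep _ _ _ (by decide) (by decide)]
    simp only [Option.bind_some]
    rw [run_plain _ _ (by intro y hy; simp at hy; omega)]
    simp only [Nat.sub_self, stk, List.length_cons, List.length_nil, List.replicate_zero,
      List.append_nil]
    rw [show T n + r + 1 + (n - r - 1) + (0 + 1 + 1) = T n + n + 2 by omega]
  · rw [proj_append, proj_pre, hT, proj_append, proj_ecs, proj_append, proj_append,
      proj_rep _ _ (by decide) (by decide)]
    have h1 : proj [3] = List.replicate 1 3 := rfl
    have h2 : proj [4, 5] = [4, 5] := rfl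
    rw [h1, h2, w0]
    congr 1
    rw [← List.append_assoc, ← List.append_assoc, ← List.replicate_add,
      ← List.replicate_add]
    congr 2
    omega

theorem invalid_B (n x r i : ℕ) (hT : x + (n + n.factorial) + r * n = T n) (hrn : r < n)
    (w : List ℕ) :
    ¬ Valid n ((List.replicate x 0 ++ (List.replicate (i + 1) 1 ++
      (List.replicate (n + n.factorial) 0 ++ blk n r))) ++
      (ecs r ++ ([3] ++ (List.replicate (i + 1) 2 ++ w)))) := by
  rintro ⟨h, -⟩
  rw [run_pre_ecs _ _ _ _ _ _ hT le_rfl hrn.le] at h
  rw [run_append, run_plain _ _ (by intro y hy; simp at hy; omega)] at h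
  simp only [Option.bind_some, List.length_singleton, Nat.sub_self] at h
  rw [List.replicate_succ (a := x), run_none_append (run_twos_none _ _ _ _ _ _ _ _)] at h
  · simp at h
  · have hf := Nat.factorial_pos n
    rintro (h2 | h2)
    · omega
    · have h5 : rho n (T n + r + 1) = (r + 1) * n := rho_e n (r + 1) hrn
      have h6 : (r + 1) * n = r * n + n := by ring
      rw [h5] at h2; omega
  · simp [stk]

theorem invalid_C (n x k m m' : ℕ) (hk : 1 ≤ k) (hn : 1 ≤ n) (hm : m' + m + 1 = n)
    (hT : x + n + n * n = T n) (w : List ℕ) :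
    ¬ Valid n ((List.replicate x 0 ++ (List.replicate k 1 ++ (List.replicate n 0 ++ blk n m'))) ++
      ((List.replicate n 0 ++ blk n m) ++ (ecs (m + 1) ++ w))) := by
  rintro ⟨h, -⟩
  rw [run_append, run_pre] at h
  simp only [Option.bind_some] at h
  rw [run_append, run_append, run_rep _ _ _ (by decide) (by decide)] at h
  simp only [Option.bind_some] at h
  rw [run_blk] at h
  simp only [Option.bind_some] at h
  have hpos : x + n + m' * n + n + m * n = T n := by
    rw [← hT]
    have : n * n = m' * n + n + m * n := by
      nth_rewrite 1 [← hm]; ring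
    omega
  rw [hpos, ecs, List.append_assoc, run_append, run_ecs _ _ _ _ _ le_rfl (by omega) hpos] at h
  simp only [Option.bind_some, Nat.sub_self, stk, List.nil_append, List.cons_append] at h
  have key : ∀ q σ, q + (m + 2) * n = T n →
      run n (3 :: 2 :: w) (T n + m) (q :: σ) = none := by
    intro q σ hq
    simp only [run]
    rw [if_neg (by decide), if_neg (by decide), if_neg (by decide), if_pos trivial, if_neg]
    rintro (h2 | h2)
    · omega
    · have h5 : rho n (T n + m + 1) = (m + 1) * n := rho_e n (m + 1) (by omega)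
      rw [h5] at h2
      have : (m + 2) * n = (m + 1) * n + n := by ring
      omega
  cases m' with
  | zero =>
    obtain ⟨k', rfl⟩ : ∃ k', k = k' + 1 := ⟨k - 1, by omega⟩
    rw [stk, List.nil_append, List.replicate_succ, key] at h
    · simp at h
    · rw [← hpos]; ring
  | succ m' =>
    rw [stk, List.cons_append, key] at h
    · simp at h
    · rw [← hpos]; ring

theorem valid_D (n s t : ℕ) (ht : t ≤ n.factorial) :
    Valid n ((List.replicate 0 0 ++ (List.replicate s 1 ++
      (List.replicate n 0 ++ blk n (n + n.factorial)))) ++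
      (ecs n ++ ([4] ++ (List.replicate t 2 ++ (List.replicate (n.factorial - t) 2 ++
        ([5] ++ List.replicate s 2)))))) := by
  have hT : 0 + n + (n + n.factorial) * n = T n := by rw [T_eq]; omega
  constructor
  · rw [run_pre_ecs _ _ _ _ _ _ hT (by omega) le_rfl]
    rw [run_append, run_plain _ _ (by intro y hy; simp at hy; omega)]
    simp only [Option.bind_some, List.length_singleton]
    rw [← List.append_assoc, ← List.replicate_add, show t + (n.factorial - t) = n.factorial by omega,
      show n + n.factorial - n = n.factorial by omega]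
    have h1 := run_twos n (T n + n + 1) (stk n (0 + n) n.factorial) (List.replicate s 0) (by
      intro q hq
      right
      have := stk_ge _ _ _ q hq
      rw [rho_g, T_eq]; omega)
    rw [stk_length] at h1
    rw [run_append, h1]
    simp only [Option.bind_some]
    rw [run_append, run_plain _ _ (by intro y hy; simp at hy; omega)]
    simp only [Option.bind_some, List.length_singleton]
    have h2 := run_twos n (T n + n + 2) (List.replicate s 0) [] (by
      intro q hq
      right
      rw [rho_h]; omega)
    rw [List.length_replicate, List.append_nil] at h2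
    exact h2
  · rw [proj_append, proj_pre, hT, proj_append, proj_ecs, proj_append, proj_append, proj_append,
      proj_append, proj_twos, proj_twos, proj_twos]
    rfl

theorem invalid_D (n s t i : ℕ) (hn : 1 ≤ n) (ht : t ≤ n.factorial) (w : List ℕ) :
    ¬ Valid n ((List.replicate 0 0 ++ (List.replicate (i + 1 + s) 1 ++
      (List.replicate n 0 ++ blk n (n + n.factorial)))) ++
      (ecs n ++ ([4] ++ (List.replicate (t + (i + 1) + (n.factorial - t)) 2 ++ w)))) := by
  have hT : 0 + n + (n + n.factorial) * n = T n := by rw [T_eq]; omega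
  rintro ⟨h, -⟩
  rw [run_pre_ecs _ _ _ _ _ _ hT (by omega) le_rfl] at h
  rw [run_append, run_plain _ _ (by intro y hy; simp at hy; omega)] at h
  simp only [Option.bind_some, List.length_singleton] at h
  rw [show i + 1 + s = (i + s) + 1 by omega, List.replicate_succ (a := 0),
    run_none_append (run_twos_none _ _ _ _ _ _ _ _)] at h
  · simp at h
  · rintro (h2 | h2)
    · omega
    · rw [rho_g, T_eq] at h2; omega
  · rw [stk_length]; omega

/-! ### The words `z_k` and their factorizations -/

/-- the length of the first block -/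
def x0 (n : ℕ) : ℕ := n.factorial * n

theorem x0_eq (n : ℕ) : x0 n + n + n * n = T n := by unfold x0 T; ring

/-- left part of `z_k` -/
def PP (n k : ℕ) : List ℕ :=
  List.replicate (x0 n) 0 ++ (List.replicate k 1 ++ (List.replicate n 0 ++ blk n n))

/-- right part of `z_k` -/
def QQ (n k : ℕ) : List ℕ := ecs n ++ ([4] ++ (List.replicate k 2 ++ [5]))

theorem valid_Z (n k : ℕ) : Valid n (PP n k ++ QQ n k) := by
  have hT := x0_eq n
  constructor
  · rw [PP, QQ, run_pre_ecs _ _ _ _ _ _ hT le_rfl le_rfl]
    rw [run_append, run_plain _ _ (by intro y hy; simp at hy; omega)]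
    simp only [Option.bind_some, List.length_singleton, Nat.sub_self, stk, List.nil_append]
    have hf := Nat.factorial_pos n
    have h2 := run_twos n (T n + n + 1) (List.replicate k (x0 n)) [] (by
      intro q hq
      right
      rw [(List.mem_replicate.1 hq).2, rho_g, ← hT]
      have h3 : n * 1 ≤ n.factorial * n := by
        rw [Nat.mul_comm n 1]; exact Nat.mul_le_mul_right _ hf
      have h4 : (n + n.factorial) * n = n * n + n.factorial * n := by ring
      omega)
    rw [List.length_replicate, List.append_nil] at h2
    rw [run_append, h2]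
    simp only [Option.bind_some]
    rw [run_plain _ _ (by intro y hy; simp at hy; omega)]
    rfl
  · rw [PP, QQ, proj_append, proj_pre, hT, proj_append, proj_ecs, proj_append, proj_append,
      proj_twos]
    rfl

theorem split_cons {A B P' y : List ℕ} {c : ℕ} (h : A ++ B = P' ++ c :: y) :
    (∃ y1, A = P' ++ c :: y1 ∧ y = y1 ++ B) ∨ (∃ B1, B = B1 ++ c :: y ∧ P' = A ++ B1) := by
  rcases List.append_eq_append_iff.1 h with ⟨a', h1, h2⟩ | ⟨c', h1, h2⟩
  · right
    exact ⟨a', h2, h1⟩
  · cases c' with
    | nil =>
      right
      refine ⟨[], by simpa using h2.symm, by simpa using h1.symm⟩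
    | cons d c'' =>
      left
      simp only [List.cons_append, List.cons.injEq] at h2
      obtain ⟨rfl, h2⟩ := h2
      exact ⟨c'', h1, h2⟩

theorem rep_split {k c : ℕ} {B y : List ℕ} (h : List.replicate k c = B ++ c :: y) :
    ∃ s, s < k ∧ y = List.replicate s c ∧ B = List.replicate (k - 1 - s) c := by
  have hy : y = List.replicate y.length c := by
    refine List.eq_replicate_of_mem fun b hb => ?_
    have : b ∈ List.replicate k c := by rw [h]; simp [hb]
    exact (List.mem_replicate.1 this).2
  have hB : B = List.replicate B.length c := by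
    refine List.eq_replicate_of_mem fun b hb => ?_
    have : b ∈ List.replicate k c := by rw [h]; simp [hb]
    exact (List.mem_replicate.1 this).2
  have hl := congrArg List.length h
  simp only [List.length_replicate, List.length_append, List.length_cons] at hl
  refine ⟨y.length, by omega, hy, ?_⟩
  rw [show k - 1 - y.length = B.length by omega]
  exact hB

theorem rep_no {k c d : ℕ} (hcd : c ≠ d) {B y : List ℕ} (h : List.replicate k c = B ++ d :: y) :
    False := by
  have : d ∈ List.replicate k c := by rw [h]; simp
  exact hcd (List.mem_replicate.1 this).2.symm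

theorem blk_split (n J : ℕ) : ∀ B y : List ℕ, blk n J = B ++ 1 :: y →
    ∃ m, m < J ∧ y = List.replicate n 0 ++ blk n m ∧ B = blk n (J - 1 - m) := by
  induction J with
  | zero => intro B y h; simp [blk] at h
  | succ J ih =>
    intro B y h
    rw [blk] at h
    rcases split_cons h with ⟨y1, h1, rfl⟩ | ⟨B1, h1, rfl⟩
    · obtain ⟨m, hm, rfl, rfl⟩ := ih _ _ h1
      refine ⟨m + 1, by omega, ?_, ?_⟩
      · rw [blk, List.append_assoc]
      · congr 1; omega
    · cases B1 with
      | nil =>
        simp only [List.nil_append, List.cons.injEq, true_and] at h1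
        refine ⟨0, by omega, by simp [blk, h1], by simp⟩
      | cons b B1 =>
        simp only [List.cons_append, List.cons.injEq] at h1
        exact (rep_no (by decide) h1.2).elim

theorem ecs_split (J : ℕ) : ∀ B y : List ℕ, ecs J = B ++ 2 :: y →
    ∃ r, r < J ∧ B = ecs r ++ [3] ∧ y = ecs (J - 1 - r) := by
  induction J with
  | zero => intro B y h; simp [ecs] at h
  | succ J ih =>
    intro B y h
    rw [ecs] at h
    rcases split_cons h with ⟨y1, h1, rfl⟩ | ⟨B1, h1, rfl⟩
    · obtain ⟨r, hr, rfl, rfl⟩ := ih _ _ h1
      refine ⟨r, by omega, rfl, ?_⟩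
      rw [show J + 1 - 1 - r = J - 1 - r + 1 by omega, ecs]
    · cases B1 with
      | nil => simp at h1
      | cons b B1 =>
        simp only [List.cons_append, List.cons.injEq] at h1
        obtain ⟨rfl, h1⟩ := h1
        cases B1 with
        | nil =>
          simp only [List.nil_append, List.cons.injEq, true_and] at h1
          subst h1
          exact ⟨J, by omega, rfl, by simp [ecs]⟩
        | cons b' B1 => simp at h1

theorem PP_split (n k : ℕ) {B y : List ℕ} (h : PP n k = B ++ 1 :: y) :
    (∃ s, s < k ∧ y = List.replicate s 1 ++ (List.replicate n 0 ++ blk n n)) ∨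
    (∃ m, m < n ∧ y = List.replicate n 0 ++ blk n m ∧
      B = List.replicate (x0 n) 0 ++ (List.replicate k 1 ++
        (List.replicate n 0 ++ blk n (n - 1 - m)))) := by
  unfold PP at h
  rcases split_cons h with ⟨y1, h1, -⟩ | ⟨B1, h1, rfl⟩
  · exact (rep_no (by decide) h1).elim
  rcases split_cons h1 with ⟨y1, h2, rfl⟩ | ⟨B2, h2, rfl⟩
  · obtain ⟨s, hs, rfl, -⟩ := rep_split h2
    exact Or.inl ⟨s, hs, rfl⟩
  rcases split_cons h2 with ⟨y1, h3, -⟩ | ⟨B3, h3, rfl⟩
  · exact (rep_no (by decide) h3).elim
  obtain ⟨m, hm, rfl, rfl⟩ := blk_split _ _ _ _ h3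
  exact Or.inr ⟨m, hm, rfl, rfl⟩

theorem QQ_split (n k : ℕ) {B y : List ℕ} (h : QQ n k = B ++ 2 :: y) :
    (∃ r, r < n ∧ B = ecs r ++ [3] ∧ y = ecs (n - 1 - r) ++ ([4] ++ (List.replicate k 2 ++ [5]))) ∨
    (∃ t, t < k ∧ B = ecs n ++ ([4] ++ List.replicate t 2)) := by
  unfold QQ at h
  rcases split_cons h with ⟨y1, h1, rfl⟩ | ⟨B1, h1, rfl⟩
  · obtain ⟨r, hr, rfl, rfl⟩ := ecs_split _ _ _ h1
    exact Or.inl ⟨r, hr, rfl, rfl⟩
  rcases split_cons h1 with ⟨y1, h2, -⟩ | ⟨B2, h2, rfl⟩
  · cases B1 with
    | nil => simp at h2
    | cons b B1 => simp at h2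
  rcases split_cons h2 with ⟨y1, h3, -⟩ | ⟨B3, h3, -⟩
  · obtain ⟨t, ht, -, rfl⟩ := rep_split h3
    exact Or.inr ⟨k - 1 - t, by omega, rfl⟩
  · cases B3 with
    | nil => simp at h3
    | cons b B3 => simp at h3

theorem two_notMem_PP (n k : ℕ) : 2 ∉ PP n k := by
  have hb : ∀ m, 2 ∉ blk n m := by
    intro m
    induction m with
    | zero => simp [blk]
    | succ m ih => simp [blk, ih]
  simp [PP, hb]

theorem one_notMem_QQ (n k : ℕ) : 1 ∉ QQ n k := by
  have hb : ∀ m, 1 ∉ ecs m := by
    intro m
    induction m with
    | zero => simp [ecs]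
    | succ m ih => simp [ecs, ih]
  simp [QQ, hb]

theorem zero_last (n : ℕ) (hn : 1 ≤ n) (m : ℕ) : ∀ a b : List ℕ,
    List.replicate n 0 ++ blk n m = a ++ b → b ≠ [] → b.getLast? = some 0 := by
  intro a b h hb
  have h1 : (List.replicate n 0 ++ blk n m).getLast? = some 0 := by
    cases m with
    | zero =>
      obtain ⟨j, rfl⟩ : ∃ j, n = j + 1 := ⟨n - 1, by omega⟩
      simp [blk, List.getLast?_replicate]
    | succ m =>
      obtain ⟨j, rfl⟩ : ∃ j, n = j + 1 := ⟨n - 1, by omega⟩
      rw [blk, List.replicate_succ' (n := j), ← List.cons_append, ← List.append_assoc,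
        ← List.append_assoc, List.getLast?_append]
      simp
  rw [h, List.getLast?_append] at h1
  cases hc : b.getLast? with
  | none => rw [List.getLast?_eq_none_iff] at hc; exact (hb hc).elim
  | some z => rw [hc] at h1; simpa using h1

theorem PP_last (n k : ℕ) (hn : 1 ≤ n) {a b : List ℕ} (h : PP n k = a ++ b) (hb : b ≠ []) :
    0 ∈ b := by
  have h0 : (List.replicate n 0 ++ blk n n).getLast? = some 0 :=
    zero_last n hn n [] _ rfl (by
      intro hc
      have := congrArg List.length hc
      simp at this; omega)
  have h1 : (PP n k).getLast? = some 0 := by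
    rw [PP, ← List.append_assoc, List.getLast?_append, h0]; rfl
  rw [h, List.getLast?_append] at h1
  cases hc : b.getLast? with
  | none => rw [List.getLast?_eq_none_iff] at hc; exact (hb hc).elim
  | some z =>
    rw [hc] at h1
    have hz : z = 0 := by simpa using h1
    subst hz
    exact List.mem_of_getLast? hc

/-- the location of the inserted context -/
theorem locate {P Q x₁ u x₂ v x₃ : List ℕ} (h : x₁ ++ u ++ x₂ ++ v ++ x₃ = P ++ Q)
    (hP : 2 ∉ P) (hQ : 1 ∉ Q) (hl : ∀ a b : List ℕ, P = a ++ b → b ≠ [] → 0 ∈ b)
    (hu : ∀ y ∈ u, y = 1 ∨ y = 2) (hv : ∀ y ∈ v, y = 1 ∨ y = 2)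
    (hc : u.count 1 + v.count 1 = u.count 2 + v.count 2) (hne : u ≠ [] ∨ v ≠ []) :
    ∃ a b, x₂ = a ++ b ∧ P = x₁ ++ u ++ a ∧ Q = b ++ v ++ x₃ := by
  have hu0 : 0 ∉ u := fun h0 => by rcases hu 0 h0 with h | h <;> simp at h
  have hv0 : 0 ∉ v := fun h0 => by rcases hv 0 h0 with h | h <;> simp at h
  have nil_of : ∀ w : List ℕ, (∀ y ∈ w, y = 1 ∨ y = 2) → w.count 1 = 0 → w.count 2 = 0 →
      w = [] := by
    intro w hw h1 h2
    rw [List.eq_nil_iff_forall_not_mem]
    intro y hy
    rcases hw y hy with rfl | rfl
    · exact (List.count_eq_zero.1 h1) hy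
    · exact (List.count_eq_zero.1 h2) hy
  have no1 : (∀ y ∈ u, y ∈ Q) → (∀ y ∈ v, y ∈ Q) → False := by
    intro h1 h2
    have c1 : u.count 1 = 0 := List.count_eq_zero.2 fun h => hQ (h1 1 h)
    have c2 : v.count 1 = 0 := List.count_eq_zero.2 fun h => hQ (h2 1 h)
    rcases hne with h | h
    · exact h (nil_of u hu c1 (by omega))
    · exact h (nil_of v hv c2 (by omega))
  have no2 : (∀ y ∈ u, y ∈ P) → (∀ y ∈ v, y ∈ P) → False := by
    intro h1 h2
    have c1 : u.count 2 = 0 := List.count_eq_zero.2 fun h => hP (h1 2 h)
    have c2 : v.count 2 = 0 := List.count_eq_zero.2 fun h => hP (h2 2 h)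
    rcases hne with h | h
    · exact h (nil_of u hu (by omega) c1)
    · exact h (nil_of v hv (by omega) c2)
  have h' : (x₁ ++ u) ++ (x₂ ++ v ++ x₃) = P ++ Q := by rw [← h]; simp
  rcases List.append_eq_append_iff.1 h' with ⟨a, h1, h2⟩ | ⟨w, h1, h2⟩
  · -- `P = (x₁ ++ u) ++ a`
    have h3 : x₂ ++ (v ++ x₃) = a ++ Q := by rw [← h2]; simp
    rcases List.append_eq_append_iff.1 h3 with ⟨w, h4, h5⟩ | ⟨b, h4, h5⟩
    · -- `a = x₂ ++ w`
      by_cases hw : w = []
      · subst hw
        refine ⟨x₂, [], by simp, by rw [h1, h4]; simp, ?_⟩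
        simpa using h5.symm
      · exfalso
        have hw0 : 0 ∈ w := hl (x₁ ++ u ++ x₂) w (by rw [h1, h4]; simp) hw
        have huP : ∀ y ∈ u, y ∈ P := fun y hy => by rw [h1]; simp [hy]
        rcases List.append_eq_append_iff.1 h5 with ⟨d, h6, -⟩ | ⟨d, h6, -⟩
        · apply no2 huP
          intro y hy
          rw [h1, h4, h6]; simp [hy]
        · apply hv0
          rw [h6]; simp [hw0]
    · exact ⟨a, b, h4, h1, by rw [h5]; simp⟩
  · -- `x₁ ++ u = P ++ w`
    exfalso
    have hvQ : ∀ y ∈ v, y ∈ Q := fun y hy => by rw [h2]; simp [hy]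
    rcases List.append_eq_append_iff.1 h1 with ⟨d, h4, h5⟩ | ⟨d, h4, h5⟩
    · by_cases hd : d = []
      · subst hd
        apply no1 _ hvQ
        intro y hy
        rw [h2, ← (show u = w by simpa using h5)]; simp [hy]
      · apply hu0
        have := hl x₁ d h4 hd
        rw [h5]; simp [this]
    · apply no1 _ hvQ
      intro y hy
      rw [h2, h5]; simp [hy]

/-! ### Pumping in automata -/

theorem iter_fact {Z : Type} [Fintype Z] {n : ℕ} (h : Fintype.card Z ≤ n) (f : Z → Z) (z : Z)
    {k : ℕ} (hk : n ≤ k) : f^[k + n.factorial] z = f^[k] z := by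
  obtain ⟨i, j, hij, he⟩ : ∃ i j : Fin (n + 1), i < j ∧ f^[i.1] z = f^[j.1] z := by
    obtain ⟨i, j, hne, he⟩ := Fintype.exists_ne_map_eq_of_card_lt
      (fun i : Fin (n + 1) => f^[i.1] z) (by simpa using Nat.lt_succ_of_le h)
    rcases lt_or_gt_of_ne hne with h1 | h1
    · exact ⟨i, j, h1, he⟩
    · exact ⟨j, i, h1, he.symm⟩
  have hij' : i.1 < j.1 := hij
  have hj := j.2
  have hstep : ∀ k, i.1 ≤ k → f^[k + (j.1 - i.1)] z = f^[k] z := by
    intro k hk
    rw [show k + (j.1 - i.1) = (k - i.1) + j.1 by omega, Function.iterate_add_apply, ← he,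
      ← Function.iterate_add_apply, show k - i.1 + i.1 = k by omega]
  have hmul : ∀ c k, i.1 ≤ k → f^[k + (j.1 - i.1) * c] z = f^[k] z := by
    intro c
    induction c with
    | zero => intro k _; simp
    | succ c ih =>
      intro k hk
      rw [show k + (j.1 - i.1) * (c + 1) = (k + (j.1 - i.1) * c) + (j.1 - i.1) by ring,
        hstep _ (by omega), ih _ hk]
  obtain ⟨c, hc⟩ : (j.1 - i.1) ∣ n.factorial := Nat.dvd_factorial (by omega) (by omega)
  rw [hc]
  exact hmul c k (by omega)

theorem iter_small {Z : Type} [Fintype Z] {n : ℕ} (h : Fintype.card Z ≤ n) (hn : 1 ≤ n)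
    (f : Z → Z) (z : Z) (t : ℕ) : ∃ t' < n, f^[t'] z = f^[t] z := by
  induction t using Nat.strong_induction_on with
  | _ t ih =>
    by_cases ht : t < n
    · exact ⟨t, ht, rfl⟩
    obtain ⟨i, j, hij, he⟩ : ∃ i j : Fin (n + 1), i < j ∧ f^[i.1] z = f^[j.1] z := by
      obtain ⟨i, j, hne, he⟩ := Fintype.exists_ne_map_eq_of_card_lt
        (fun i : Fin (n + 1) => f^[i.1] z) (by simpa using Nat.lt_succ_of_le h)
      rcases lt_or_gt_of_ne hne with h1 | h1
      · exact ⟨i, j, h1, he⟩
      · exact ⟨j, i, h1, he.symm⟩
    have hij' : i.1 < j.1 := hij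
    have hj := j.2
    obtain ⟨t', ht', he'⟩ := ih (t - (j.1 - i.1)) (by omega)
    refine ⟨t', ht', he'.trans ?_⟩
    rw [show t - (j.1 - i.1) = (t - j.1) + i.1 by omega, Function.iterate_add_apply, he,
      ← Function.iterate_add_apply, show t - j.1 + j.1 = t by omega]

theorem foldl_rep {Z : Type} (δ : Z → ℕ → Z) (z : Z) (k c : ℕ) :
    (List.replicate k c).foldl δ z = (fun z => δ z c)^[k] z := by
  induction k generalizing z with
  | zero => rfl
  | succ k ih => rw [List.replicate_succ, List.foldl_cons, ih, Function.iterate_succ_apply]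

theorem foldl_blk {Z : Type} (δ : Z → ℕ → Z) (z : Z) (n m : ℕ) :
    (blk n m).foldl δ z = (fun z => (1 :: List.replicate n 0).foldl δ z)^[m] z := by
  induction m with
  | zero => rfl
  | succ m ih => rw [blk, List.foldl_append, ih, Function.iterate_succ_apply']

/-! ### Grammars with state-bounded selection -/

theorem last_step {G : Grammar} {w : List ℕ} (h : w ∈ G.lang) (hA : w ∉ G.A) :
    ∃ p ∈ G.P, ∃ c ∈ p.C, ∃ x₁ x₂ x₃, x₁ ++ x₂ ++ x₃ ∈ G.lang ∧ x₂ ∈ p.S ∧
      w = x₁ ++ c.1 ++ x₂ ++ c.2 ++ x₃ ∧ (c.1 ≠ [] ∨ c.2 ≠ []) := by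
  obtain ⟨x, hx, hr⟩ := h
  induction hr with
  | refl => exact absurd hx hA
  | @tail y z hxy hs ih =>
    obtain ⟨p, hp, c, hc, x₁, x₂, x₃, rfl, h2, rfl⟩ := hs
    by_cases hne : c.1 ≠ [] ∨ c.2 ≠ []
    · exact ⟨p, hp, c, hc, x₁, x₂, x₃, ⟨x, hx, hxy⟩, h2, rfl, hne⟩
    · simp only [not_or, not_not] at hne
      rw [hne.1, hne.2] at hA ⊢
      simp only [List.append_nil] at hA ⊢
      exact ih hA

theorem proj_nil {u : List ℕ} (h : proj u = []) : ∀ y ∈ u, y = 1 ∨ y = 2 := by
  intro y hy
  unfold proj at h
  rw [List.filter_eq_nil_iff] at h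
  have := h y hy
  simp only [decide_eq_true_eq, not_and_or, not_not] at this
  exact this

/-- pumping the selected word, first form -/
theorem pump_D {n : ℕ} (hn : 1 ≤ n) {V : Finset ℕ} {S : Set (List ℕ)} (hS : REGZ n V S)
    (h0 : 0 ∈ V) (h1 : 1 ∈ V) (h2 : 2 ∈ V) {s t : ℕ} {w : List ℕ} (hw : Over V w)
    (h : (List.replicate s 1 ++ (List.replicate n 0 ++ blk n n)) ++
      (w ++ List.replicate t 2) ∈ S) :
    ∃ t' < n, (List.replicate s 1 ++ (List.replicate n 0 ++ blk n (n + n.factorial))) ++
      (w ++ List.replicate t' 2) ∈ S := by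
  obtain ⟨-, Z, _, δ, z₀, F, hcard, hF⟩ := hS
  have ob : ∀ m, Over V (blk n m) := by
    intro m
    induction m with
    | zero => intro y hy; simp [blk] at hy
    | succ m ih =>
      intro y hy
      simp only [blk, List.mem_append, List.mem_cons, List.mem_replicate] at hy
      rcases hy with hy | rfl | ⟨-, rfl⟩
      · exact ih y hy
      · exact h1
      · exact h0
  have ov : ∀ m t, Over V ((List.replicate s 1 ++ (List.replicate n 0 ++ blk n m)) ++
      (w ++ List.replicate t 2)) := by
    intro m t y hy
    simp only [List.mem_append, List.mem_replicate] at hy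
    rcases hy with (⟨-, rfl⟩ | ⟨-, rfl⟩ | hy) | hy | ⟨-, rfl⟩
    · exact h1
    · exact h0
    · exact ob m y hy
    · exact hw y hy
    · exact h2
  rw [hF _ (ov _ _)] at h
  simp only [List.foldl_append] at h
  rw [foldl_blk, ← iter_fact hcard _ _ le_rfl, ← foldl_blk,
    foldl_rep _ _ t] at h
  obtain ⟨t', ht', he⟩ := iter_small hcard hn (fun z => δ z 2)
    (w.foldl δ ((blk n (n + n.factorial)).foldl δ ((List.replicate n 0).foldl δ
      ((List.replicate s 1).foldl δ z₀)))) t
  refine ⟨t', ht', ?_⟩
  rw [hF _ (ov _ _)]
  simp only [List.foldl_append]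
  rw [foldl_rep _ _ t', he]
  exact h

/-- pumping the selected word, second form -/
theorem pump_B {n : ℕ} {V : Finset ℕ} {S : Set (List ℕ)} (hS : REGZ n V S) (h0 : 0 ∈ V)
    {w : List ℕ} (hw : Over V w) (h : List.replicate n 0 ++ w ∈ S) :
    List.replicate (n + n.factorial) 0 ++ w ∈ S := by
  obtain ⟨-, Z, _, δ, z₀, F, hcard, hF⟩ := hS
  have ov : ∀ m, Over V (List.replicate m 0 ++ w) := by
    intro m y hy
    simp only [List.mem_append, List.mem_replicate] at hy
    rcases hy with ⟨-, rfl⟩ | hy
    · exact h0
    · exact hw y hy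
  rw [hF _ (ov _)] at h ⊢
  rw [List.foldl_append, foldl_rep, iter_fact hcard _ _ le_rfl, ← foldl_rep, ← List.foldl_append]
  exact h

theorem over_of_infix {V : Finset ℕ} {x y : List ℕ} (h : x <:+: y) (hy : Over V y) : Over V x :=
  fun a ha => hy a (h.subset ha)

theorem lang_over (G : Grammar) {w : List ℕ} (h : w ∈ G.lang) : Over G.V w := by
  obtain ⟨x, hx, hr⟩ := h
  induction hr with
  | refl => exact G.hA x hx
  | tail _ hs ih =>
    obtain ⟨p, hp, c, hc, x₁, x₂, x₃, rfl, h2, rfl⟩ := hs
    have h3 := G.hC p hp c hc
    intro y hy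
    simp only [List.mem_append] at hy
    rcases hy with (((hy | hy) | hy) | hy) | hy
    · exact ih y (by simp [hy])
    · exact h3.1 y hy
    · exact ih y (by simp [hy])
    · exact h3.2 y hy
    · exact ih y (by simp [hy])

/-- For every `n ≥ 1` there is a language generated by an internal contextual grammar with
suffix-closed regular selection languages which is not generated by any internal contextual
grammar whose selection languages are accepted by automata with at most `n` states. -/
theorem result (n : ℕ) (hn : 1 ≤ n) : ∃ L : Set (List ℕ), L ∈ IC SUF ∧ L ∉ IC (REGZ n) := by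
  refine ⟨(G0 n).lang, ⟨G0 n, ?_, rfl⟩, ?_⟩
  · intro p hp
    have hp' : p = sel0 n := by simpa [G0] using hp
    subst hp'
    exact ⟨S0_regular n, S0_suf n⟩
  rintro ⟨G, hG, hL⟩
  rw [G0_lang] at hL
  have hmem : ∀ w, w ∈ G.lang ↔ Valid n w := fun w => by rw [hL]; rfl
  obtain ⟨k, hk1, hk⟩ : ∃ k, 1 ≤ k ∧ ∀ w ∈ G.A, w.length < k := by
    refine ⟨G.A.sup List.length + 1, by omega, fun w hw => ?_⟩
    exact Nat.lt_succ_of_le (Finset.le_sup (f := List.length) hw)
  have hz : PP n k ++ QQ n k ∈ G.lang := (hmem _).2 (valid_Z n k)
  have hzA : PP n k ++ QQ n k ∉ G.A := by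
    intro h
    have h1 := hk _ h
    have h2 : k ≤ (PP n k ++ QQ n k).length := by
      simp [PP]; omega
    omega
  obtain ⟨p, hp, c, hc, x₁, x₂, x₃, hx, hS, hzx, hne⟩ := last_step hz hzA
  obtain ⟨u, v⟩ := c
  simp only at hzx hne
  have hrule : ∀ y₁ f y₃, f ∈ p.S → Valid n (y₁ ++ f ++ y₃) →
      Valid n (y₁ ++ u ++ f ++ v ++ y₃) := by
    intro y₁ f y₃ hf hv
    obtain ⟨a, ha, har⟩ := (hmem _).2 hv
    exact (hmem _).1 ⟨a, ha, har.tail ⟨p, hp, (u, v), hc, y₁, f, y₃, rfl, hf, rfl⟩⟩
  have hv1 := (hmem _).1 hx
  have hv2 := (hmem _).1 hz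
  rw [hzx] at hv2
  have hpu : proj u = [] ∧ proj v = [] := by
    have h1 := congrArg List.length hv1.2
    have h2 := congrArg List.length hv2.2
    simp only [proj_append, List.length_append] at h1 h2
    constructor <;> rw [← List.length_eq_zero_iff] <;> omega
  have hu := proj_nil hpu.1
  have hv := proj_nil hpu.2
  have hcount : u.count 1 + v.count 1 = u.count 2 + v.count 2 := by
    have h1 := valid_count hv1
    have h2 := valid_count hv2
    simp only [List.count_append] at h1 h2
    omega
  obtain ⟨a, b, rfl, hP, hQ⟩ := locate hzx.symm (two_notMem_PP n k) (one_notMem_QQ n k)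
    (fun a b h hb => PP_last n k hn h hb) hu hv hcount hne
  -- the context is `(1^(j+1), 2^(j+1))`
  have hu' : u = List.replicate u.length 1 := by
    refine List.eq_replicate_of_mem fun y hy => ?_
    rcases hu y hy with h | h
    · exact h
    · exfalso
      apply two_notMem_PP n k
      rw [hP, ← h]; simp [hy]
  have hv' : v = List.replicate v.length 2 := by
    refine List.eq_replicate_of_mem fun y hy => ?_
    rcases hv y hy with h | h
    · exfalso
      apply one_notMem_QQ n k
      rw [hQ, ← h]; simp [hy]
    · exact h
  have hlen : u.length = v.length := by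
    rw [hu', hv'] at hcount
    simp only [List.count_replicate_self] at hcount
    rw [List.count_replicate, List.count_replicate] at hcount
    simpa using hcount
  obtain ⟨j, hj⟩ : ∃ j, u.length = j + 1 := by
    refine ⟨u.length - 1, ?_⟩
    have : 0 < u.length := by
      rcases Nat.eq_zero_or_pos u.length with h | h
      · exfalso
        rcases hne with h1 | h1
        · exact h1 (List.length_eq_zero_iff.1 h)
        · exact h1 (List.length_eq_zero_iff.1 (by omega))
      · exact h
    omega
  rw [← hlen, hj] at hv'
  rw [hj] at hu'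
  clear hlen hj hcount hne hu hv hpu
  subst hu' hv'
  -- positions of the context
  have hP1 : PP n k = (x₁ ++ List.replicate j 1) ++ 1 :: a := by
    rw [hP, List.replicate_succ']; simp
  have hQ1 : QQ n k = b ++ 2 :: (List.replicate j 2 ++ x₃) := by
    rw [hQ, List.replicate_succ]; simp
  have hV0 : 0 ∈ G.V := lang_over G hz 0 (by simp [PP]; right; omega)
  have hb1 : ∀ m, 1 ≤ m → 1 ∈ blk n m := by
    intro m hm
    obtain ⟨m', rfl⟩ : ∃ m', m = m' + 1 := ⟨m - 1, by omega⟩
    simp [blk]
  have hb2 : ∀ m, 1 ≤ m → 2 ∈ ecs m ∧ 3 ∈ ecs m := by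
    intro m hm
    obtain ⟨m', rfl⟩ : ∃ m', m = m' + 1 := ⟨m - 1, by omega⟩
    simp [ecs]
  have hV1 : 1 ∈ G.V := lang_over G hz 1 (by simp [PP, hb1 n hn])
  have hV2 : 2 ∈ G.V := lang_over G hz 2 (by simp [QQ, hb2 n hn])
  have hSV : Over G.V (a ++ b) := G.hS p hp _ hS
  have hbV : Over G.V b := over_of_infix (List.suffix_append _ _).isInfix hSV
  have haV : Over G.V a := over_of_infix (List.prefix_append _ _).isInfix hSV
  have hT := x0_eq n
  rcases QQ_split n k hQ1 with ⟨r, hr, rfl, hx3⟩ | ⟨t, ht, rfl⟩
  · -- the closing brackets are in the block `(3 2)^n`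
    have hj0 : j = 0 := by
      cases j with
      | zero => rfl
      | succ j =>
        exfalso
        cases hd : n - 1 - r with
        | zero => rw [hd] at hx3; simp [ecs, List.replicate_succ] at hx3
        | succ d =>
          rw [hd, Nat.add_comm d 1, ecs_add] at hx3
          simp [ecs, List.replicate_succ] at hx3
    subst hj0
    -- the case of an unmatched opening bracket
    have caseA : ∀ s m, r < m → m ≤ n →
        a = List.replicate s 1 ++ (List.replicate n 0 ++ blk n m) → False := by
      rintro s m hrm hmn rfl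
      obtain ⟨x, hx⟩ : ∃ x, x + n + m * n = T n := by
        have : m * n ≤ n * n := Nat.mul_le_mul_right _ hmn
        exact ⟨T n - n - m * n, by omega⟩
      have h1 := valid_A n x s m r hx hrm hmn
      have h2 := hrule (List.replicate x 0)
        ((List.replicate s 1 ++ (List.replicate n 0 ++ blk n m)) ++ (ecs r ++ [3]))
        (List.replicate (m - r - 1) 3 ++ (List.replicate (m - r) 2 ++
        (List.replicate (n - m) 3 ++ ([4, 5] ++ List.replicate s 2)))) hS (by
          simpa only [List.append_assoc] using h1)
      refine invalid_A n x s m r hn hx hrm hmn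
        (List.replicate (n - m) 3 ++ ([4, 5] ++ List.replicate s 2)) ?_
      rw [Nat.add_comm s 1, List.replicate_add]
      simpa only [ecs, List.append_assoc, List.replicate_succ, List.replicate_zero,
        List.cons_append, List.nil_append] using h2
    rcases PP_split n k hP1 with ⟨s, hs, ha⟩ | ⟨m, hm, ha, hx1⟩
    · exact caseA s n hr le_rfl ha
    · rcases Nat.lt_trichotomy r m with hrm | hrm | hrm
      · exact caseA 0 m hrm hm.le (by simpa using ha)
      · subst hrm ha
        obtain ⟨x, hx⟩ : ∃ x, x + (n + n.factorial) + r * n = T n := by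
          refine ⟨T n - (n + n.factorial) - r * n, ?_⟩
          have h1 : r * n ≤ (n - 1) * n := Nat.mul_le_mul_right _ (by omega)
          have h2 : n.factorial * 1 ≤ n.factorial * n := Nat.mul_le_mul_left _ hn
          have h3 : (n - 1) * n + n = n * n := by
            rw [Nat.sub_mul, Nat.one_mul]
            exact Nat.sub_add_cancel (Nat.le_mul_of_pos_left n hn)
          have h4 : T n = n * n + n.factorial * n + n := by unfold T; ring
          omega
        have hS' := pump_B (hG p hp) hV0 (w := blk n r ++ (ecs r ++ [3]))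
          (by
            intro y hy
            apply hSV y
            simp only [List.mem_append] at hy ⊢
            tauto) (by simpa only [List.append_assoc] using hS)
        have h1 := valid_B n x r hx hr
        have h2 := hrule (List.replicate x 0) _ (List.replicate (n - r - 1) 3 ++ [4, 5]) hS' (by
          simpa only [List.append_assoc, List.replicate_zero, List.nil_append] using h1)
        refine invalid_B n x r 0 hx hr (List.replicate (n - r - 1) 3 ++ [4, 5]) ?_
        simpa only [List.append_assoc] using h2
      · subst ha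
        obtain ⟨d, rfl⟩ : ∃ d, r = (m + 1) + d := ⟨r - (m + 1), by omega⟩
        refine invalid_C n (x0 n) k m (n - 1 - m) hk1 hn (by omega) hT (ecs d ++ [3] ++ x₃) ?_
        simp only [List.replicate_zero, List.append_nil] at hx1
        rw [hx1, ecs_add] at hv1
        simpa only [List.append_assoc] using hv1
  · -- the closing brackets are in the block `2^k`
    rcases PP_split n k hP1 with ⟨s, hs, ha⟩ | ⟨m, hm, ha, hx1⟩
    · subst ha
      obtain ⟨t', ht', hS'⟩ := pump_D hn (hG p hp) hV0 hV1 hV2 (w := ecs n ++ [4]) (t := t) (s := s)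
        (by
          intro y hy
          apply hbV y
          simp only [List.mem_append] at hy ⊢
          tauto) (by simpa only [List.append_assoc] using hS)
      have htf : t' ≤ n.factorial := ht'.le.trans (Nat.self_le_factorial n)
      have h1 := valid_D n s t' htf
      have h2 := hrule [] _ (List.replicate (n.factorial - t') 2 ++ ([5] ++ List.replicate s 2))
        hS' (by simpa only [List.append_assoc, List.replicate_zero, List.nil_append] using h1)
      refine invalid_D n s t' j hn htf ([5] ++ List.replicate s 2) ?_
      rw [List.replicate_add (j + 1) s, List.replicate_add (t' + (j + 1)),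
        List.replicate_add t']
      simpa only [List.append_assoc, List.replicate_zero, List.nil_append] using h2
    · have hj0 : j = 0 := by
        by_contra hj
        obtain ⟨j', rfl⟩ : ∃ j', j = j' + 1 := ⟨j - 1, by omega⟩
        have h0 : (List.replicate n 0 ++ blk n (n - 1 - m)).getLast? = some 0 :=
          zero_last n hn _ [] _ rfl (by
            intro hc
            have := congrArg List.length hc
            simp at this; omega)
        have h2 : (List.replicate (x0 n) 0 ++ (List.replicate k 1 ++
            (List.replicate n 0 ++ blk n (n - 1 - m)))).getLast? = some 0 := by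
          rw [← List.append_assoc, List.getLast?_append, h0]; rfl
        have h1 := congrArg List.getLast? hx1
        rw [h2, List.replicate_succ', ← List.append_assoc, List.getLast?_append] at h1
        simp at h1
      subst hj0 ha
      refine invalid_C n (x0 n) k m (n - 1 - m) (by omega) hn (by omega) hT
        (ecs (n - 1 - m) ++ ([4] ++ List.replicate t 2) ++ x₃) ?_
      simp only [List.replicate_zero, List.append_nil] at hx1
      have he : ecs n = ecs (m + 1) ++ ecs (n - 1 - m) := by
        rw [← ecs_add]; congr 1; omega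
      rw [hx1, he] at hv1
      simpa only [List.append_assoc] using hv1

end Pool.Agent.Results.MP_47ab97_lc.SufNotState
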